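import Pool.Agent.H57.Q.Heart
import Pool.Agent.H16.FQ.Plug

set_option autoImplicit false

/-!
Goddyn's conjecture on permutation graphs (MP_a46c6f_co, Q1): assembly.
-/

namespace Pool.Agent.H57.Q

open SimpleGraph Pool.Agent.H5.Goddyn Pool.Agent.H98.TC Pool.Agent.H64.Pent

theorem main {V : Type*} [Finite V] (G : SimpleGraph V) (M C₁ C₂ : G.Subgraph)
    (h : IsPermutationGraph G M C₁ C₂) (hrem : ∀ C : G.Subgraph, ¬ Removable G (wt M) C) :
    IsPetersenPair G M :=
  Pool.Agent.H16.FQ.petersen_of_heart heart G M C₁ C₂ h hrem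


end Pool.Agent.H57.Q
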