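import Pool.Agent.H57.Q.Root
import Pool.Agent.H32.AA.One
import Pool.Agent.H97.Q.Mat
import Pool.Agent.H77.Q.Defs

set_option autoImplicit false

/-!
The heart (MP_a46c6f_co, note 7214): a rooted code with sides has a tree as its graph.
-/

namespace Pool.Agent.H57.Q

open Pool.Agent.H98.Code Pool.Agent.H17.TR Pool.Agent.H77.P3 Pool.Agent.H77.Q Pool.Agent.H97.Q
open Pool.Agent.H17.P3 (IsP4)

section
variable {X : Type} [Fintype X] [DecidableEq X] {B : Submodule (ZMod 2) (X → K)}
  {H : X → X → ZMod 2} {e : X} {S : (X → K) → Finset X → Prop}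

/-- the reduced Laplacian is injective -/
theorem injR (R : RSides B e S) (hB : IsCode B) (hH : IsMat B H) (p : X → ZMod 2) (he : p e = 0)
    (h0 : ∀ v, v ≠ e → lap H p v = 0) : p = 0 := by
  classical
  have alle : ∀ q : X → ZMod 2, (∀ v, v ≠ e → lap H q v = 0) → ∀ v, lap H q v = 0 := by
    intro q hq v
    by_cases hv : v = e
    · subst hv
      have h1 := lap_sum hH.sym q
      rw [← Finset.add_sum_erase _ _ (Finset.mem_univ v)] at h1
      rw [Finset.sum_eq_zero (s := Finset.univ.erase v)
        (fun w hw => hq w (Finset.ne_of_mem_erase hw)), add_zero] at h1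
      exact h1
    · exact hq v hv
  have zf : ∀ q : X → ZMod 2, (∀ v, lap H q v = 0) → ZFree (Wd H q) := by
    intro q hq v hv
    rw [Wd_z_iff, hq v] at hv
    exact absurd hv.2 (by decide)
  -- kernel words
  let Ker : (X → K) → Prop := fun u => u ∈ B ∧ u e = 0 ∧ ∀ v, lap H (fun w => (u w).1) v = 0
  have ker_zf : ∀ u, Ker u → ZFree u := by
    rintro u ⟨hu, -, hl⟩
    rw [eq_Wd hH hu]
    exact zf _ hl
  have ker_ns : ∀ u, Ker u → ¬ ∃ g, Splits B u g := by
    rintro u ⟨hu, -, hl⟩ ⟨g, hg⟩
    rw [eq_Wd hH hu] at hg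
    exact no_split_kernel hB hH hl hg
  have ker_le : ∀ u, Ker u → ∀ d ∈ B, (∀ v, d v = 0 ∨ d v = u v) → Ker d := by
    rintro u ⟨hu, hue, hl⟩ d hd hle
    refine ⟨hd, ?_, ?_⟩
    · rcases hle e with h | h
      · exact h
      · rw [h, hue]
    · intro v
      have h1 := hle v
      rw [eq_Wd hH hd, eq_Wd hH hu] at h1
      rcases h1 with h1 | h1
      · exact ((Wd_zero_iff _ _ _).1 h1).2
      · rw [((Wd_eq_iff _ _ _ _).1 h1).2]
        exact hl v
  -- an irreducible word with a given place
  have irr_at : ∀ u, Ker u → ∀ y, u y ≠ 0 → ∃ d ∈ B, (∀ v, d v = 0 ∨ d v = u v) ∧ d y ≠ 0 ∧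
      Irr B d := by
    intro u hu y hy
    let Q : ℕ → Prop := fun n => ∃ d ∈ B, (∀ v, d v = 0 ∨ d v = u v) ∧ d y ≠ 0 ∧
      (Finset.univ.filter fun v => d v ≠ 0).card = n
    have hQ : ∃ n, Q n := ⟨_, u, hu.1, fun v => Or.inr rfl, hy, rfl⟩
    obtain ⟨d, hd, hdu, hdy, hn⟩ := Nat.find_spec hQ
    refine ⟨d, hd, hdu, hdy, ?_⟩
    have key : ∀ c ∈ B, (∀ v, c v = 0 ∨ c v = d v) → c y ≠ 0 → c = d := by
      intro c hc hcd hcy
      have h1 := Nat.find_min' hQ ⟨c, hc, fun v => by
        rcases hcd v with h | h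
        · exact Or.inl h
        · rw [h]; exact hdu v, hcy, rfl⟩
      rw [← hn] at h1
      have hsub : (Finset.univ.filter fun v => c v ≠ 0) ⊆ Finset.univ.filter fun v => d v ≠ 0 := by
        intro v hv
        rw [Finset.mem_filter] at hv ⊢
        refine ⟨hv.1, fun h0 => hv.2 ?_⟩
        rcases hcd v with h | h
        · exact h
        · rw [h, h0]
      have h2 := Finset.eq_of_subset_of_card_le hsub h1
      funext v
      rcases hcd v with h | h
      · have : v ∉ Finset.univ.filter fun v => c v ≠ 0 := by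
          rw [Finset.mem_filter]
          exact fun hh => hh.2 h
        rw [h2, Finset.mem_filter] at this
        rw [h]
        by_contra h3
        exact this ⟨Finset.mem_univ _, fun h4 => h3 h4.symm⟩
      · exact h
    intro c hc hcd
    by_cases hcy : c y = 0
    · left
      have hcd' : ∀ v, (c + d) v = 0 ∨ (c + d) v = d v := by
        intro v
        rcases hcd v with h | h
        · right; show c v + d v = d v; rw [h, zero_add]
        · left; show c v + d v = 0; rw [h]; exact (show ∀ a : K, a + a = 0 by decide) _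
      have h1 := key (c + d) (B.add_mem hc hd) hcd' (by
        show c y + d y ≠ 0
        rw [hcy, zero_add]
        exact hdy)
      funext v
      have h2 : c v + d v = d v := congrFun h1 v
      show c v = 0
      revert h2
      generalize c v = a
      generalize d v = b
      revert a b
      decide
    · exact Or.inr (key c hc hcd hcy)
  by_contra hp
  have hl := alle p h0
  have hk0 : Ker (Wd H p) := ⟨Wd_mem hH p, (Wd_zero_iff H p e).2 ⟨he, hl e⟩, hl⟩
  -- an irreducible kernel word with own places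
  let Q : ℕ → Prop := fun n => ∃ u Y, Ker u ∧ Irr B u ∧ u ≠ 0 ∧ S u Y ∧ Y.Nonempty ∧ Y.card = n
  have hQ : ∃ n, Q n := by
    obtain ⟨y, hy⟩ : ∃ y, p y ≠ 0 := by
      by_contra hcon
      push Not at hcon
      exact hp (funext hcon)
    obtain ⟨d, hd, hdu, hdy, hirr⟩ := irr_at _ hk0 y (by
      intro hh
      exact hy ((Wd_zero_iff _ _ _).1 hh).1)
    have hkd := ker_le _ hk0 d hd hdu
    have hd0 : d ≠ 0 := fun h => hdy (by rw [h]; rfl)
    rcases R.ex d hd (ker_zf d hkd) hkd.2.1 hd0 hirr with h1 | ⟨Y, hY, hSY⟩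
    · exact absurd h1 (ker_ns d hkd)
    · exact ⟨Y.card, d, Y, hkd, hirr, hd0, hSY, hY, rfl⟩
  obtain ⟨u, Y, hku, hirr, hu0, hS, ⟨y, hy⟩, hn⟩ := Nat.find_spec hQ
  have huW := eq_Wd hH hku.1
  have hom : ∀ v, u v ≠ 0 → Wd H (fun _ => 1) v = 0 ∨ Wd H (fun _ => 1) v = u v := by
    intro v hv
    right
    have h1 : u v = Wd H (fun w => (u w).1) v := congrFun huW v
    rw [h1] at hv
    rw [h1, Wd_eq_iff, lap_one, hku.2.2 v]
    refine ⟨?_, rfl⟩
    rcases z2 (u v).1 with h5 | h5
    · exfalso
      apply hv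
      rw [Wd_zero_iff]
      exact ⟨h5, hku.2.2 v⟩
    · exact h5.symm
  obtain ⟨k', hk'B, h1, h2, h3⟩ := R.part u Y hS (Wd H (fun _ => 1)) (Wd_mem hH _) hom
  have hkk : Ker k' := by
    refine ⟨hk'B, h2 e hku.2.1 (R.root u Y hS), ?_⟩
    intro v
    by_cases hvY : v ∈ Y
    · have h5 := h1 v hvY
      rw [eq_Wd hH hk'B] at h5
      rw [((Wd_eq_iff _ _ _ _).1 h5).2]
      exact lap_one H v
    · by_cases hv0 : u v = 0
      · have h5 := h2 v hv0 hvY
        rw [eq_Wd hH hk'B] at h5
        exact ((Wd_zero_iff _ _ _).1 h5).2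
      · rcases h3 v hv0 with h5 | h5
        · rw [eq_Wd hH hk'B] at h5
          exact ((Wd_zero_iff _ _ _).1 h5).2
        · rw [eq_Wd hH hk'B, huW] at h5
          rw [((Wd_eq_iff _ _ _ _).1 h5).2]
          exact hku.2.2 v
  have hyk : k' y ≠ 0 := by
    rw [h1 y hy]
    intro hh
    exact absurd ((Wd_zero_iff _ _ _).1 hh).1 (by decide)
  obtain ⟨d, hd, hdk, hdy, hdirr⟩ := irr_at k' hkk y hyk
  have hkd := ker_le _ hkk d hd hdk
  have hd0 : d ≠ 0 := fun h => hdy (by rw [h]; rfl)
  have hdle : ∀ v, u v ≠ 0 → d v = 0 ∨ d v = u v := by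
    intro v hv
    rcases hdk v with h | h
    · exact Or.inl h
    · rw [h]; exact h3 v hv
  have hdoff : ∀ v, u v = 0 → v ∉ Y → d v = 0 := by
    intro v hv hvY
    rcases hdk v with h | h
    · exact h
    · rw [h]; exact h2 v hv hvY
  rcases R.mono u Y hS hirr d hd (ker_zf d hkd) hd0 hdirr hdle hdoff with h5 | ⟨Y', hY', hne, hS'⟩
  · exact ker_ns d hkd h5
  · have h6 := Nat.find_min' hQ ⟨d, Y', hkd, hdirr, hd0, hS', hne, rfl⟩
    rw [← hn] at h6
    have h7 := Finset.eq_of_subset_of_card_le hY' h6
    exact hdy (R.zero d Y' hS' y (h7 ▸ hy))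

variable {M : X → X → ZMod 2}

/-- the Laplacian of a sum of columns -/
lemma lap_q (hH : IsMat B H) (hM : ∀ x y, M x y = M y x) (he : ∀ x, M e x = 0)
    (hi : ∀ u, u ≠ e → ∀ v, lap H (fun w => M w v) u = if u = v then 1 else 0)
    {T : Finset X} (heT : e ∉ T) (heven : ∑ _x ∈ T, (1 : ZMod 2) = 0) (v : X) :
    lap H (fun w => ∑ x ∈ T, M w x) v = if v ∈ T then 1 else 0 := by
  have hlq' : ∀ v, lap H (fun w => ∑ x ∈ T, M w x) v = ∑ x ∈ T, lap H (fun w => M w x) v := by
    intro v
    unfold lap
    rw [Finset.sum_comm]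
    refine Finset.sum_congr rfl fun w _ => ?_
    rw [← Finset.mul_sum, ← Finset.sum_add_distrib]
  have hlq1 : ∀ v, v ≠ e → lap H (fun w => ∑ x ∈ T, M w x) v = if v ∈ T then 1 else 0 := by
    intro v hv
    rw [hlq' v, Finset.sum_congr rfl fun x _ => hi v hv x, Finset.sum_ite_eq]
  by_cases hv : v = e
  · subst hv
    rw [if_neg heT]
    have h1 := lap_sum hH.sym (fun w => ∑ x ∈ T, M w x)
    rw [← Finset.add_sum_erase _ _ (Finset.mem_univ v),
      Finset.sum_congr rfl fun x hx => hlq1 x (Finset.ne_of_mem_erase hx)] at h1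
    rw [← Finset.sum_filter] at h1
    have h2 : (Finset.univ.erase v).filter (fun x => x ∈ T) = T := by
      ext x
      simp only [Finset.mem_filter, Finset.mem_erase, Finset.mem_univ, and_true]
      constructor
      · exact fun h => h.2
      · intro hx
        exact ⟨fun h => heT (h ▸ hx), hx⟩
    rw [h2, heven, add_zero] at h1
    exact h1
  · exact hlq1 v hv

/-- a word which is `0` at the root and whose Laplacian is supported on `T` -/
lemma rec_of (hH : IsMat B H) (hM : ∀ x y, M x y = M y x) (he : ∀ x, M e x = 0)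
    (hi : ∀ u, u ≠ e → ∀ v, lap H (fun w => M w v) u = if u = v then 1 else 0)
    {T : Finset X} (p : X → ZMod 2) (hp : p e = 0) (hl : ∀ v, v ∉ T → lap H p v = 0) (w : X) :
    p w = ∑ x ∈ T, M w x * lap H p x := by
  rw [recover hH hM he hi p hp w]
  symm
  apply Finset.sum_subset (Finset.subset_univ _)
  intro x _ hx
  rw [hl x hx, mul_zero]

/-- facts about good sets -/
lemma good_facts (hM : ∀ x y, M x y = M y x) (he : ∀ x, M e x = 0) {T : Finset X}
    (hT : Good M T) : e ∉ T ∧ T.Nonempty ∧ ∑ _x ∈ T, (1 : ZMod 2) = 0 ∧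
      (∀ w ∈ T, ∑ x ∈ T, M w x = 1) ∧
      ∀ σ : X → ZMod 2, ∑ x ∈ T, σ x = 0 → (∀ w ∈ T, ∑ x ∈ T, M w x * σ x = σ w) →
        (∀ w ∈ T, σ w = 0) ∨ ∀ w ∈ T, σ w = 1 := by
  rcases hT with ⟨u, v, ⟨huu, huv⟩, rfl⟩ | ⟨a, b, c, d, h4, haa, hbb, hcc, hdd, rfl⟩
  · have hne : u ≠ v := by
      rintro rfl
      exact huv rfl
    have hue : e ≠ u := by
      rintro rfl
      exact huv (by rw [he, he])
    have hve : e ≠ v := by
      rintro rfl
      exact huv (by rw [hM u e, he, huu, he])
    refine ⟨by simp [hue, hve], ⟨u, by simp⟩, by rw [Finset.sum_pair hne]; decide, ?_, ?_⟩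
    · intro w hw
      rw [Finset.sum_pair hne]
      rcases Finset.mem_insert.1 hw with rfl | hw
      · revert huv
        generalize M w w = a
        generalize M w v = b
        revert a b
        decide
      · rw [Finset.mem_singleton] at hw
        subst hw
        rw [hM w u, ← huu]
        revert huv
        generalize M u u = a
        generalize M u w = b
        revert a b
        decide
    · intro σ h1 h2
      rw [Finset.sum_pair hne] at h1
      rcases z2 (σ u) with h3 | h3
      · left
        intro w hw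
        rcases Finset.mem_insert.1 hw with rfl | hw
        · exact h3
        · rw [Finset.mem_singleton] at hw
          rw [hw]
          rw [h3, zero_add] at h1
          exact h1
      · right
        intro w hw
        rcases Finset.mem_insert.1 hw with rfl | hw
        · exact h3
        · rw [Finset.mem_singleton] at hw
          rw [hw]
          rw [h3] at h1
          revert h1
          generalize σ v = a
          revert a
          decide
  · obtain ⟨hab, hbc, hcd, hac, had, hbd⟩ := h4
    have n01 : (0 : ZMod 2) ≠ 1 := by decide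
    have nab : a ≠ b := by
      rintro rfl
      exact n01 (haa.symm.trans hbb)
    have nac : a ≠ c := by
      rintro rfl
      exact n01 (haa.symm.trans hcc)
    have nad : a ≠ d := by
      rintro rfl
      exact n01 (hbd.symm.trans (by rw [hM b a]; exact hab))
    have nbc : b ≠ c := by
      rintro rfl
      exact n01 (hac.symm.trans hab)
    have nbd : b ≠ d := by
      rintro rfl
      exact n01 (hdd.symm.trans hbb)
    have ncd : c ≠ d := by
      rintro rfl
      exact n01 (hdd.symm.trans hcc)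
    have nea : e ≠ a := by
      rintro rfl
      exact n01 ((he b).symm.trans hab)
    have neb : e ≠ b := by
      rintro rfl
      exact n01 ((he c).symm.trans hbc)
    have nec : e ≠ c := by
      rintro rfl
      exact n01 ((he d).symm.trans hcd)
    have ned : e ≠ d := by
      rintro rfl
      exact n01 ((he c).symm.trans (by rw [hM e c]; exact hcd))
    have hsum : ∀ f : X → ZMod 2, ∑ x ∈ ({a, b, c, d} : Finset X), f x =
        f a + (f b + (f c + f d)) := by
      intro f
      rw [Finset.sum_insert (by simp [nab, nac, nad]), Finset.sum_insert (by simp [nbc, nbd]),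
        Finset.sum_pair ncd]
    refine ⟨by simp [nea, neb, nec, ned], ⟨a, by simp⟩, by rw [hsum]; decide, ?_, ?_⟩
    · intro w hw
      rw [hsum]
      simp only [Finset.mem_insert, Finset.mem_singleton] at hw
      rcases hw with rfl | rfl | rfl | rfl
      · rw [haa, hab, hac, had]; decide
      · rw [hM w a, hab, hbb, hbc, hbd]; decide
      · rw [hM w a, hM w b, hac, hbc, hcc, hcd]; decide
      · rw [hM w a, hM w b, hM w c, had, hbd, hcd, hdd]; decide
    · intro σ h1 h2
      have ea := h2 a (by simp)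
      have eb := h2 b (by simp)
      have ec := h2 c (by simp)
      have ed := h2 d (by simp)
      rw [hsum] at ea eb ec ed
      rw [haa, hab, hac, had] at ea
      rw [hM b a, hab, hbb, hbc, hbd] at eb
      rw [hM c a, hM c b, hac, hbc, hcc, hcd] at ec
      rw [hM d a, hM d b, hM d c, had, hbd, hcd, hdd] at ed
      have hab' : σ b = σ a := by
        revert ea
        generalize σ a = s
        generalize σ b = t
        generalize σ c = p
        generalize σ d = q
        revert s t p q
        decide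
      have hcd' : σ c = σ d := by
        revert ed
        generalize σ a = s
        generalize σ b = t
        generalize σ c = p
        generalize σ d = q
        revert s t p q
        decide
      have hac' : σ c = σ a := by
        revert eb
        rw [hab']
        generalize σ a = s
        generalize σ c = p
        generalize σ d = q
        revert s p q
        decide
      rcases z2 (σ a) with h3 | h3
      · left
        intro w hw
        simp only [Finset.mem_insert, Finset.mem_singleton] at hw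
        rcases hw with rfl | rfl | rfl | rfl
        · exact h3
        · rw [hab', h3]
        · rw [hac', h3]
        · rw [← hcd', hac', h3]
      · right
        intro w hw
        simp only [Finset.mem_insert, Finset.mem_singleton] at hw
        rcases hw with rfl | rfl | rfl | rfl
        · exact h3
        · rw [hab', h3]
        · rw [hac', h3]
        · rw [← hcd', hac', h3]

/-- from a splitting of the word of `T` to a splitting of `T` -/
theorem sp_of_splits (hH : IsMat B H) (hM : ∀ x y, M x y = M y x)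
    (he : ∀ x, M e x = 0)
    (hi : ∀ u, u ≠ e → ∀ v, lap H (fun w => M w v) u = if u = v then 1 else 0)
    (T : Finset X) (heT : e ∉ T) (heven : ∑ _x ∈ T, (1 : ZMod 2) = 0)
    (hcol : ∀ w ∈ T, ∑ x ∈ T, M w x = 1)
    (hsp : ∃ g, Splits B (Wd H (fun w => ∑ x ∈ T, M w x)) g) :
    ∃ g, Sp M T g ∅ := by
  set q : X → ZMod 2 := fun w => ∑ x ∈ T, M w x with hq
  have hqe : q e = 0 := Finset.sum_eq_zero fun x _ => he x
  have hlq : ∀ v, lap H q v = if v ∈ T then 1 else 0 := lap_q hH hM he hi heT heven
  obtain ⟨g, c₁, hc₁, c₂, hc₂, hs, hg1, hg2, hd⟩ := hsp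
  have hsv : ∀ v, c₁ v + c₂ v = (q v, deg H v * q v + lap H q v) := fun v => congrFun hs v
  have hgT : g ∉ T := by
    intro hg
    have h1 := hsv g
    have h2 : q g = 1 := hcol g hg
    rw [hg1, hg2, h2] at h1
    have := congrArg Prod.fst h1
    simp [z] at this
  have hce : (c₁ e).1 = 0 := by
    by_cases hge : e = g
    · rw [hge, hg1]
      rfl
    · have h1 := hsv e
      rw [hqe, hlq, if_neg heT, mul_zero, add_zero] at h1
      rcases hd e hge with h3 | h3
      · rw [h3]
        rfl
      · rw [h3, add_zero] at h1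
        rw [h1]
  set p : X → ZMod 2 := fun w => (c₁ w).1 with hp
  have hsnd : ∀ v, (c₁ v).2 = deg H v * p v + lap H p v := snd_eq hH hc₁
  have hz0 : ∀ v, c₁ v = 0 → p v = 0 ∧ lap H p v = 0 := by
    intro v hv
    have h1 : p v = 0 := congrArg Prod.fst hv
    have h2 := hsnd v
    rw [h1, mul_zero, zero_add, hv] at h2
    exact ⟨h1, h2.symm⟩
  have hz1 : ∀ v, c₂ v = 0 → p v = q v ∧ lap H p v = lap H q v := by
    intro v hv
    have h3 := hsv v
    rw [hv, add_zero] at h3
    have h1 : p v = q v := congrArg Prod.fst h3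
    have h2 := hsnd v
    rw [h1, h3] at h2
    exact ⟨h1, (add_left_cancel h2).symm⟩
  have hpg : p g = 0 := congrArg Prod.fst hg1
  have hlg : lap H p g = 1 := by
    have h2 := hsnd g
    rw [hpg, mul_zero, zero_add, hg1] at h2
    exact h2.symm
  have hl0 : ∀ v, v ∉ T → v ≠ g → lap H p v = 0 := by
    intro v hvT hvg
    rcases hd v hvg with h3 | h3
    · exact (hz0 v h3).2
    · rw [(hz1 v h3).2, hlq, if_neg hvT]
  have hsum : ∀ f : X → ZMod 2, ∑ v, f v * lap H p v = ∑ x ∈ T, f x * lap H p x + f g := by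
    intro f
    have h1 : ∑ v, f v * lap H p v = ∑ x ∈ insert g T, f x * lap H p x := by
      symm
      apply Finset.sum_subset (Finset.subset_univ _)
      intro x _ hx
      rw [Finset.mem_insert, not_or] at hx
      rw [hl0 x hx.2 hx.1, mul_zero]
    rw [h1, Finset.sum_insert hgT, hlg, mul_one, add_comm]
  refine ⟨g, lap H p, ?_, ?_, ?_⟩
  · have h1 := hsum (fun _ => 1)
    simp only [one_mul] at h1
    rw [lap_sum hH.sym] at h1
    revert h1
    generalize ∑ x ∈ T, lap H p x = a
    revert a
    decide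
  · intro w hw
    rw [← hsum, ← recover hH hM he hi p hce w]
    have hwg : w ≠ g := fun h => hgT (h ▸ hw)
    rcases hd w hwg with h3 | h3
    · rw [(hz0 w h3).1, (hz0 w h3).2]
    · rw [(hz1 w h3).1, (hz1 w h3).2, hlq, if_pos hw]
      exact hcol w hw
  · intro w hw _
    rw [← hsum, ← recover hH hM he hi p hce w]
    by_cases hwg : w = g
    · rw [hwg, hpg]
    · rcases hd w hwg with h3 | h3
      · exact (hz0 w h3).1
      · rw [(hz1 w h3).1]
        exact hw

/-- **the data of `Mat` from the sides** -/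
theorem ms (R : RSides B e S) (hB : IsCode B) (hH : IsMat B H) (hM : ∀ x y, M x y = M y x)
    (he : ∀ x, M e x = 0)
    (hi : ∀ u, u ≠ e → ∀ v, lap H (fun w => M w v) u = if u = v then 1 else 0) :
    MS M (fun T Y => S (Wd H (fun w => ∑ x ∈ T, M w x)) Y) := by
  classical
  -- values of the word of a good set
  have val0 : ∀ T, Good M T → ∀ v, (∑ x ∈ T, M v x) = 0 →
      Wd H (fun w => ∑ x ∈ T, M w x) v = 0 := by
    intro T hT v hv
    obtain ⟨h1, h2, h3, h4, h5⟩ := good_facts hM he hT
    rw [Wd_zero_iff]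
    refine ⟨hv, ?_⟩
    rw [lap_q hH hM he hi h1 h3, if_neg]
    intro hvT
    rw [h4 v hvT] at hv
    exact absurd hv (by decide)
  have zf : ∀ T, Good M T → ZFree (Wd H (fun w => ∑ x ∈ T, M w x)) := by
    intro T hT v hv
    have h6 := (Wd_z_iff _ _ _).1 hv
    have h7 := val0 T hT v h6.1
    rw [h7] at hv
    exact absurd hv (by decide)
  have ue : ∀ T, Good M T → Wd H (fun w => ∑ x ∈ T, M w x) e = 0 := by
    intro T hT
    exact val0 T hT e (Finset.sum_eq_zero fun x _ => he x)
  have une : ∀ T, Good M T → Wd H (fun w => ∑ x ∈ T, M w x) ≠ 0 := by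
    intro T hT hh
    obtain ⟨h1, ⟨t, ht⟩, h3, h4, h5⟩ := good_facts hM he hT
    have h6 : ∑ x ∈ T, M t x = 0 := congrArg Prod.fst (congrFun hh t)
    rw [h4 t ht] at h6
    exact absurd h6 (by decide)
  -- words below the word of `T` up to the full word
  have low : ∀ T, Good M T → ∀ κ ∈ B, κ e = 0 → (∀ v, v ∉ T → lap H (fun w => (κ w).1) v = 0) →
      (∀ v ∈ T, κ v = 0 ∨ κ v = Wd H (fun w => ∑ x ∈ T, M w x) v) →
      κ = 0 ∨ κ = Wd H (fun w => ∑ x ∈ T, M w x) := by
    intro T hT κ hκ hκe hl hle
    obtain ⟨h1, ⟨t, ht⟩, h3, h4, h5⟩ := good_facts hM he hT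
    have hκW := eq_Wd hH hκ
    set p : X → ZMod 2 := fun w => (κ w).1 with hp
    have hpe : p e = 0 := by show (κ e).1 = 0; rw [hκe]; rfl
    have hrec := rec_of hH hM he hi (T := T) p hpe hl
    have hpl : ∀ v ∈ T, p v = lap H p v := by
      intro v hv
      have h6 := hle v hv
      rw [hκW] at h6
      rcases h6 with h6 | h6
      · rw [Wd_zero_iff] at h6
        rw [h6.1, h6.2]
      · rw [Wd_eq_iff] at h6
        rw [h6.1, h6.2, lap_q hH hM he hi h1 h3, if_pos hv]
        exact h4 v hv
    have hsum : ∑ x ∈ T, lap H p x = 0 := by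
      have h6 := lap_sum hH.sym p
      rw [← h6]
      apply Finset.sum_subset (Finset.subset_univ _)
      intro x _ hx
      exact hl x hx
    rcases h5 (lap H p) hsum (fun w hw => (hrec w).symm.trans (hpl w hw)) with h6 | h6
    · left
      have hp0 : ∀ w, p w = 0 := by
        intro w
        rw [hrec w]
        exact Finset.sum_eq_zero fun x hx => by rw [h6 x hx, mul_zero]
      rw [hκW]
      funext v
      show Wd H p v = 0
      rw [Wd_zero_iff]
      refine ⟨hp0 v, ?_⟩
      by_cases hv : v ∈ T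
      · exact h6 v hv
      · exact hl v hv
    · right
      have hp0 : p = fun w => ∑ x ∈ T, M w x := by
        funext w
        rw [hrec w]
        exact Finset.sum_congr rfl fun x hx => by rw [h6 x hx, mul_one]
      rw [hκW]
      rw [hp0]
  have irr : ∀ T, Good M T → Irr B (Wd H (fun w => ∑ x ∈ T, M w x)) := by
    intro T hT κ hκ hle
    obtain ⟨h1, ⟨t, ht⟩, h3, h4, h5⟩ := good_facts hM he hT
    apply low T hT κ hκ
    · rcases hle e with h6 | h6
      · exact h6
      · rw [h6]; exact ue T hT
    · intro v hv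
      have h6 := hle v
      rw [eq_Wd hH hκ] at h6
      rcases h6 with h6 | h6
      · exact ((Wd_zero_iff _ _ _).1 h6).2
      · rw [((Wd_eq_iff _ _ _ _).1 h6).2, lap_q hH hM he hi h1 h3, if_neg hv]
    · intro v _
      exact hle v
  have spl : ∀ T, Good M T → (∃ g, Splits B (Wd H (fun w => ∑ x ∈ T, M w x)) g) →
      ∃ g, Sp M T g ∅ := by
    intro T hT hg
    obtain ⟨h1, ⟨t, ht⟩, h3, h4, h5⟩ := good_facts hM he hT
    exact sp_of_splits hH hM he hi T h1 h3 h4 hg
  refine ⟨hM, ?_, ?_, ?_, ?_⟩
  · intro T hT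
    rcases R.ex _ (Wd_mem hH _) (zf T hT) (ue T hT) (une T hT) (irr T hT) with h6 | h6
    · exact Or.inl (spl T hT h6)
    · exact Or.inr h6
  · -- own
    intro T Y hT hS y hy
    obtain ⟨h1, ⟨t, ht⟩, h3, h4, h5⟩ := good_facts hM he hT
    have hlq := lap_q hH hM he hi h1 h3
    set q : X → ZMod 2 := fun w => ∑ x ∈ T, M w x with hq
    set u : X → K := Wd H q with hu
    have huy : u y = 0 := R.zero _ _ hS y hy
    have hyT : y ∉ T := by
      intro hh
      have h7 : ∑ x ∈ T, M y x = 0 := ((Wd_zero_iff _ _ _).1 huy).1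
      have h6 := h4 y hh
      rw [h7] at h6
      exact absurd h6 (by decide)
    have heY : e ∉ Y := R.root _ _ hS
    have hye : y ≠ e := fun h => heY (h ▸ hy)
    let ψ : X → K := fun v => if u v = 0 then Wd H (fun _ => 1) v else u v
    have hψ : ∀ v, ψ v ≠ 0 := by
      intro v
      show (if u v = 0 then Wd H (fun _ => 1) v else u v) ≠ 0
      split_ifs with h6
      · intro hh
        exact absurd ((Wd_zero_iff _ _ _).1 hh).1 (by decide)
      · exact h6
    -- kernel words
    have ker : ∀ κ ∈ B, (∀ v, κ v = 0 ∨ κ v = ψ v) → κ e = 0 → κ y = 0 := by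
      intro κ hκ hle hκe
      have h6 := low T hT κ hκ hκe (by
        intro v hv
        have h7 := hle v
        rw [eq_Wd hH hκ] at h7
        rcases h7 with h7 | h7
        · exact ((Wd_zero_iff _ _ _).1 h7).2
        · by_cases h8 : u v = 0
          · simp only [ψ, if_pos h8] at h7
            rw [((Wd_eq_iff _ _ _ _).1 h7).2]
            exact lap_one H v
          · simp only [ψ, if_neg h8] at h7
            rw [hu] at h7
            rw [((Wd_eq_iff _ _ _ _).1 h7).2, hlq, if_neg hv]) (by
        intro v hv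
        have h8 : u v ≠ 0 := by
          intro hh
          have h10 : ∑ x ∈ T, M v x = 0 := ((Wd_zero_iff _ _ _).1 hh).1
          have h9 := h4 v hv
          rw [h10] at h9
          exact absurd h9 (by decide)
        have h7 := hle v
        simp only [ψ, if_neg h8] at h7
        exact h7)
      rcases h6 with h6 | h6
      · rw [h6]; rfl
      · rw [h6]; exact huy
    have ker2 : ∀ κ ∈ B, (∀ v, κ v = 0 ∨ κ v = ψ v) → ∀ κ' ∈ B, (∀ v, κ' v = 0 ∨ κ' v = ψ v) →
        κ e ≠ 0 → κ' e ≠ 0 → (κ y = 0 ↔ κ' y = 0) := by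
      intro κ hκ hle κ' hκ' hle' h6 h7
      have h8 : (κ + κ') y = 0 := by
        apply ker _ (B.add_mem hκ hκ')
        · intro v
          show κ v + κ' v = 0 ∨ κ v + κ' v = ψ v
          rcases hle v with h9 | h9 <;> rcases hle' v with h10 | h10 <;> rw [h9, h10]
          · left; exact add_zero _
          · right; exact zero_add _
          · right; exact add_zero _
          · left; exact (show ∀ a : K, a + a = 0 by decide) _
        · show κ e + κ' e = 0
          rw [(hle e).resolve_left h6, (hle' e).resolve_left h7]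
          exact (show ∀ a : K, a + a = 0 by decide) _
      have h9 : κ y + κ' y = 0 := h8
      revert h9
      generalize κ y = a
      generalize κ' y = b
      revert a b
      decide
    let c : ZMod 2 := if ∃ κ ∈ B, (∀ v, κ v = 0 ∨ κ v = ψ v) ∧ κ e ≠ 0 ∧ κ y ≠ 0 then 1 else 0
    let s : X → ZMod 2 := fun v => if v = y then 1 else if v = e then c else 0
    obtain ⟨k, hkB, hk⟩ := dual_word hB ψ s hψ (by
      intro κ hκ hle
      have h6 : ∑ v, (if κ v = 0 then 0 else s v) =
          (if κ y = 0 then 0 else 1) + if κ e = 0 then 0 else c := by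
        rw [← Finset.add_sum_erase _ _ (Finset.mem_univ y),
          ← Finset.add_sum_erase _ _ (Finset.mem_erase.2 ⟨hye.symm, Finset.mem_univ e⟩)]
        rw [Finset.sum_eq_zero (s := (Finset.univ.erase y).erase e), add_zero]
        · simp only [s, if_true, if_neg hye.symm]
        · intro v hv
          rw [Finset.mem_erase, Finset.mem_erase] at hv
          simp only [s, if_neg hv.1, if_neg hv.2.1, ite_self]
      rw [h6]
      by_cases h7 : κ e = 0
      · rw [if_pos (ker κ hκ hle h7), if_pos h7]; rfl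
      · rw [if_neg h7]
        by_cases h8 : κ y = 0
        · rw [if_pos h8, zero_add]
          show (if ∃ κ ∈ B, (∀ v, κ v = 0 ∨ κ v = ψ v) ∧ κ e ≠ 0 ∧ κ y ≠ 0 then (1 : ZMod 2) else 0) = 0
          rw [if_neg]
          rintro ⟨κ', hκ', hle', h9, h10⟩
          exact h10 ((ker2 κ hκ hle κ' hκ' hle' h7 h9).1 h8)
        · rw [if_neg h8]
          show 1 + (if ∃ κ ∈ B, (∀ v, κ v = 0 ∨ κ v = ψ v) ∧ κ e ≠ 0 ∧ κ y ≠ 0 then (1 : ZMod 2) else 0) = 0
          rw [if_pos ⟨κ, hκ, hle, h7, h8⟩]
          decide)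
    have hku : ∀ v, u v ≠ 0 → k v = 0 ∨ k v = u v := by
      intro v hv
      have h6 := hk v
      have hvy : v ≠ y := fun h => hv (h ▸ huy)
      have hve : v ≠ e := fun h => hv (h ▸ ue T hT)
      simp only [s, if_neg hvy, if_neg hve, ψ, if_neg hv] at h6
      exact (kf_cases _ _ hv).1 h6
    have hkl : ∀ v ∈ Y, lap H (fun w => (k w).1) v = if v = y then 1 else 0 := by
      intro v hv
      have h6 := hk v
      have huv : u v = 0 := R.zero _ _ hS v hv
      have hve : v ≠ e := fun h => heY (h ▸ hv)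
      simp only [s, if_neg hve, ψ, if_pos huv] at h6
      rw [← h6]
      have h7 : k v = Wd H (fun w => (k w).1) v := congrFun (eq_Wd hH hkB) v
      rw [h7]
      show lap H (fun w => (k w).1) v = kf ((k v).1, deg H v * (k v).1 + lap H (fun w => (k w).1) v)
        ((1, deg H v * 1 + lap H (fun _ => 1) v) : K)
      rw [lap_one]
      simp only [kf]
      generalize lap H (fun w => (k w).1) v = a
      generalize deg H v = b
      generalize (k v).1 = c
      revert a b c
      decide
    obtain ⟨k', hk'B, g1, g2, g3⟩ := R.part _ Y hS k hkB hku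
    set p : X → ZMod 2 := fun w => (k' w).1 with hp
    have hkW : k' = Wd H p := eq_Wd hH hk'B
    have hk'e : k' e = 0 := g2 e (ue T hT) heY
    have hpe : p e = 0 := by show (k' e).1 = 0; rw [hk'e]; rfl
    have hl : ∀ v, v ∉ insert y T → lap H p v = 0 := by
      intro v hv
      rw [Finset.mem_insert, not_or] at hv
      by_cases hvY : v ∈ Y
      · have h6 := g1 v hvY
        rw [hkW, eq_Wd hH hkB] at h6
        rw [((Wd_eq_iff _ _ _ _).1 h6).2, hkl v hvY, if_neg hv.1]
      · by_cases huv : u v = 0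
        · have h6 := g2 v huv hvY
          rw [hkW] at h6
          exact ((Wd_zero_iff _ _ _).1 h6).2
        · rcases g3 v huv with h6 | h6
          · rw [hkW] at h6
            exact ((Wd_zero_iff _ _ _).1 h6).2
          · rw [hkW, hu] at h6
            rw [((Wd_eq_iff _ _ _ _).1 h6).2, hlq, if_neg hv.2]
    have hly : lap H p y = 1 := by
      have h6 := g1 y hy
      rw [hkW, eq_Wd hH hkB] at h6
      rw [((Wd_eq_iff _ _ _ _).1 h6).2, hkl y hy, if_pos rfl]
    have hrec : ∀ w, p w = ∑ x ∈ T, M w x * lap H p x + M w y := by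
      intro w
      rw [rec_of hH hM he hi (T := insert y T) p hpe hl w, Finset.sum_insert hyT, hly, mul_one,
        add_comm]
    refine ⟨lap H p, ?_, ?_, ?_⟩
    · have h6 := lap_sum hH.sym p
      have h7 : ∑ v, lap H p v = ∑ v ∈ insert y T, lap H p v := by
        symm
        apply Finset.sum_subset (Finset.subset_univ _)
        intro x _ hx
        exact hl x hx
      rw [h7, Finset.sum_insert hyT, hly] at h6
      revert h6
      generalize ∑ x ∈ T, lap H p x = a
      revert a
      decide
    · intro w hw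
      rw [← hrec w]
      have h8 : u w ≠ 0 := by
        intro hh
        have h10 : ∑ x ∈ T, M w x = 0 := ((Wd_zero_iff _ _ _).1 hh).1
        have h9 := h4 w hw
        rw [h10] at h9
        exact absurd h9 (by decide)
      rcases g3 w h8 with h6 | h6
      · rw [hkW, Wd_zero_iff] at h6
        rw [h6.1, h6.2]
      · rw [hkW, hu, Wd_eq_iff] at h6
        rw [h6.1, h6.2, hlq, if_pos hw]
        exact h4 w hw
    · intro w hw hwY
      rw [← hrec w]
      have h6 := g2 w (val0 T hT w hw) hwY
      rw [hkW] at h6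
      exact ((Wd_zero_iff _ _ _).1 h6).1
  · intro T Y hT hS y hy
    exact ((Wd_zero_iff _ _ _).1 (R.zero _ _ hS y hy)).1
  · -- mono
    intro T Y hT hS T' hT' hoff hon
    obtain ⟨h1, ⟨t, ht⟩, h3, h4, h5⟩ := good_facts hM he hT
    obtain ⟨h1', -, h3', h4', -⟩ := good_facts hM he hT'
    have hlq := lap_q hH hM he hi h1 h3
    have hlq' := lap_q hH hM he hi h1' h3'
    rcases R.mono _ Y hS (irr T hT) _ (Wd_mem hH (fun w => ∑ x ∈ T', M w x)) (zf T' hT')
      (une T' hT') (irr T' hT') (by
        intro v hv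
        have h6 : ∑ x ∈ T, M v x ≠ 0 := fun hh => hv (val0 T hT v hh)
        rcases hon v h6 with ⟨h7, h8⟩ | ⟨h7, h8⟩
        · exact Or.inl (val0 T' hT' v h7)
        · right
          rw [Wd_eq_iff, hlq, hlq']
          refine ⟨?_, ?_⟩
          · show ∑ x ∈ T', M v x = ∑ x ∈ T, M v x
            rw [h7, (ne_zero_iff _).1 h6]
          · by_cases h9 : v ∈ T
            · rw [if_pos h9, if_pos (h8.2 h9)]
            · rw [if_neg h9, if_neg (fun h => h9 (h8.1 h))]) (by
        intro v hv hvY
        exact val0 T' hT' v (hoff v ((Wd_zero_iff _ _ _).1 hv).1 hvY).1) with h6 | ⟨Y', h6, h7, h8⟩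
    · exact Or.inl (spl T' hT' h6)
    · exact Or.inr ⟨Y', h6, h7, h8⟩

/-- the matrix statement for a rooted code with sides -/
theorem core (R : RSides B e S) (hB : IsCode B) (hH : IsMat B H) :
    ∃ M : X → X → ZMod 2, (∀ x y, M x y = M y x) ∧ (∀ x, M e x = 0) ∧
      (∀ u, u ≠ e → ∀ v, (∑ w, H u w * (M u v + M w v)) = if u = v then 1 else 0) ∧
      Pool.Agent.H17.P3.Pairs M ∧ Pool.Agent.H17.P3.P4Split M := by
  obtain ⟨M, hM, he, hi⟩ := exists_inv' hH (injR R hB hH)
  have h := ms R hB hH hM he hi
  exact ⟨M, hM, he, hi, h.pairs, h.p4split⟩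

end

open Pool.Agent.H32.AA in
/-- **the heart** -/
theorem heart : ∀ (X : Type) [Fintype X] [DecidableEq X] (B : Submodule (ZMod 2) (X → K)) (e : X)
    (S : (X → K) → Finset X → Prop), IsCode B → NoZ B → RSides B e S → (graph B).IsTree := by
  intro X _ _ B e S hB hz R
  obtain ⟨H, hs, hm⟩ := exists_matrix hB hz
  have hH : Pool.Agent.H17.TR.IsMat B H := ⟨hs, hm⟩
  have hH' : Pool.Agent.H32.AA.IsMat B H := ⟨hs, hm⟩
  have heq : graph B = GrH H := by
    ext v w
    rw [Pool.Agent.H32.AA.adj_iff hH', hH.adj]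
  rw [heq]
  obtain ⟨M, hM, he, hinv, hp, h4⟩ := core R hB hH
  exact Pool.Agent.H26.P3.tree_end X e H M hH.sym hM he hinv hp
    (Pool.Agent.H57.P4.p3 X M hM hp h4)

end Pool.Agent.H57.Q
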