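import Pool.Agent.H77.P3.CodeSide
import Pool.Agent.H57.P4.P3
import Pool.Agent.H26.P3.End

set_option autoImplicit false

/-!
Rooted codes with sides (MP_a46c6f_co, note 7214): the matrix of the code has midpoints and no induced
path on four vertices.
-/

namespace Pool.Agent.H57.Q

open Pool.Agent.H98.Code Pool.Agent.H17.TR Pool.Agent.H77.P3

/-- `S u F Y`: `F` is the side of `u` without the root, `Y` its own edges -/
structure RS {X Φ : Type} [Fintype X] (B : Submodule (ZMod 2) (X → K)) (e : X)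
    (S : (X → K) → Finset Φ → Finset X → Prop) : Prop where
  mem : ∀ {u F Y}, S u F Y → u ∈ B ∧ ZFree u ∧ u e = 0 ∧ e ∉ Y ∧ ∀ v ∈ Y, u v = 0
  ex : ∀ {u}, u ∈ B → ZFree u → u e = 0 → ∃ F Y, S u F Y
  det : ∀ {u u' F Y Y'}, S u F Y → S u' F Y' → u = u'
  part : ∀ {u F Y}, S u F Y → ∀ k ∈ B, (∀ v, u v ≠ 0 → k v = 0 ∨ k v = u v) →
    ∃ k' ∈ B, (∀ v ∈ Y, k' v = k v) ∧ (∀ v, u v = 0 → v ∉ Y → k' v = 0) ∧
      (∀ v, u v ≠ 0 → k' v = 0 ∨ k' v = u v) ∧
      (ZFree k' → (∃ F' ⊆ F, ∃ Y' ⊆ Y, S k' F' Y') ∧ ∃ F' ⊆ F, ∃ Y' ⊆ Y, S (k' + u) F' Y')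
  wc : ∀ {u F}, S u F ∅ → u ≠ 0 →
    (∀ κ F' Y', S κ F' Y' → F' ⊆ F → (∀ v, κ v = 0 ∨ κ v = u v) → κ = 0 ∨ κ = u) →
    ∃ g, Splits B u g

section
variable {X Φ : Type} [Fintype X]

/-- the word with first coordinate `p` -/
def Wd (H : X → X → ZMod 2) (p : X → ZMod 2) : X → K :=
  fun v => ((p v, deg H v * p v + lap H p v) : K)

variable {B : Submodule (ZMod 2) (X → K)} {H : X → X → ZMod 2}

lemma Wd_mem (hH : IsMat B H) (p : X → ZMod 2) : Wd H p ∈ B := word_mem hH p

lemma eq_Wd (hH : IsMat B H) {u : X → K} (hu : u ∈ B) : u = Wd H (fun v => (u v).1) := by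
  funext v
  exact Prod.ext rfl (snd_eq hH hu v)

lemma Wd_zero_iff (H : X → X → ZMod 2) (p : X → ZMod 2) (v : X) :
    Wd H p v = 0 ↔ p v = 0 ∧ lap H p v = 0 := by
  unfold Wd
  rw [Prod.ext_iff]
  show p v = 0 ∧ deg H v * p v + lap H p v = 0 ↔ _
  constructor
  · rintro ⟨h1, h2⟩
    rw [h1, mul_zero, zero_add] at h2
    exact ⟨h1, h2⟩
  · rintro ⟨h1, h2⟩
    rw [h1, h2, mul_zero, zero_add]
    exact ⟨rfl, rfl⟩

lemma Wd_eq_iff (H : X → X → ZMod 2) (p q : X → ZMod 2) (v : X) :
    Wd H p v = Wd H q v ↔ p v = q v ∧ lap H p v = lap H q v := by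
  unfold Wd
  rw [Prod.ext_iff]
  show p v = q v ∧ deg H v * p v + lap H p v = deg H v * q v + lap H q v ↔ _
  constructor
  · rintro ⟨h1, h2⟩
    rw [h1] at h2
    exact ⟨h1, add_left_cancel h2⟩
  · rintro ⟨h1, h2⟩
    rw [h1, h2]
    exact ⟨rfl, rfl⟩

lemma Wd_z_iff (H : X → X → ZMod 2) (p : X → ZMod 2) (v : X) :
    Wd H p v = z ↔ p v = 0 ∧ lap H p v = 1 := by
  unfold Wd z
  rw [Prod.ext_iff]
  show p v = 0 ∧ deg H v * p v + lap H p v = 1 ↔ _
  constructor
  · rintro ⟨h1, h2⟩
    rw [h1, mul_zero, zero_add] at h2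
    exact ⟨h1, h2⟩
  · rintro ⟨h1, h2⟩
    rw [h1, h2, mul_zero, zero_add]
    exact ⟨rfl, rfl⟩

lemma Wd_add (H : X → X → ZMod 2) (p q : X → ZMod 2) : Wd H (p + q) = Wd H p + Wd H q := by
  funext v
  apply Prod.ext
  · rfl
  · show deg H v * (p + q) v + lap H (p + q) v = deg H v * p v + lap H p v +
      (deg H v * q v + lap H q v)
    rw [lap_add, Pi.add_apply]
    ring

lemma lap_one (H : X → X → ZMod 2) (v : X) : lap H (fun _ => 1) v = 0 := by
  unfold lap
  apply Finset.sum_eq_zero
  intro w _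
  rw [show (1 : ZMod 2) + 1 = 0 from by decide, mul_zero]

lemma ne_zero_iff (a : ZMod 2) : a ≠ 0 ↔ a = 1 := by
  revert a; decide

lemma kf_cases (a b : K) (hb : b ≠ 0) : kf a b = 0 ↔ a = 0 ∨ a = b := by
  revert a b
  unfold kf
  decide

/-- duality: which words are traces of words of the code -/
theorem dual_word (hB : IsCode B) (ψ : X → K) (s : X → ZMod 2) (hψ : ∀ v, ψ v ≠ 0)
    (hs : ∀ k ∈ B, (∀ v, k v = 0 ∨ k v = ψ v) → ∑ v, (if k v = 0 then 0 else s v) = 0) :
    ∃ k ∈ B, ∀ v, kf (k v) (ψ v) = s v := by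
  classical
  let φ : (X → K) →ₗ[ZMod 2] (X → ZMod 2) :=
    { toFun := fun k v => kf (k v) (ψ v)
      map_add' := by
        intro k k'
        funext v
        show kf (k v + k' v) (ψ v) = kf (k v) (ψ v) + kf (k' v) (ψ v)
        simp only [kf, Prod.fst_add, Prod.snd_add]
        ring
      map_smul' := by
        intro c k
        funext v
        show kf (c • k v) (ψ v) = c * kf (k v) (ψ v)
        simp only [kf, Prod.smul_fst, Prod.smul_snd, smul_eq_mul]
        ring }
  have key : s ∈ B.map φ := by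
    rw [← Subspace.forall_mem_dualAnnihilator_apply_eq_zero_iff]
    intro f hf
    rw [Submodule.mem_dualAnnihilator] at hf
    let t : X → ZMod 2 := fun v => f (Pi.single v 1)
    have hft : ∀ r : X → ZMod 2, f r = ∑ v, t v * r v := by
      intro r
      have h1 : r = ∑ v, r v • (Pi.single v (1 : ZMod 2) : X → ZMod 2) := by
        funext j
        rw [Finset.sum_apply, Finset.sum_eq_single j]
        · simp
        · intro i _ hi
          rw [Pi.smul_apply, Pi.single_eq_of_ne hi.symm, smul_zero]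
        · intro h
          exact absurd (Finset.mem_univ j) h
      conv_lhs => rw [h1]
      rw [map_sum]
      refine Finset.sum_congr rfl fun v _ => ?_
      rw [map_smul, smul_eq_mul, mul_comm]
    have hc : (fun v => t v • ψ v) ∈ B := by
      apply hB.max
      intro k hk
      have h1 := hf (φ k) ⟨k, hk, rfl⟩
      rw [hft] at h1
      rw [← h1]
      unfold form
      refine Finset.sum_congr rfl fun v _ => ?_
      show kf (t v • ψ v) (k v) = t v * kf (k v) (ψ v)
      simp only [kf, Prod.smul_fst, Prod.smul_snd, smul_eq_mul]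
      ring
    have h2 := hs _ hc (by
      intro v
      show t v • ψ v = 0 ∨ t v • ψ v = ψ v
      rcases z2 (t v) with h | h
      · rw [h, zero_smul]; exact Or.inl rfl
      · rw [h, one_smul]; exact Or.inr rfl)
    rw [hft, ← h2]
    refine Finset.sum_congr rfl fun v _ => ?_
    show t v * s v = if t v • ψ v = 0 then 0 else s v
    rcases z2 (t v) with h | h
    · rw [h, zero_smul, if_pos rfl, zero_mul]
    · rw [h, one_smul, if_neg (hψ v), one_mul]
  obtain ⟨k, hk, hks⟩ := key
  exact ⟨k, hk, fun v => congrFun hks v⟩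

variable [DecidableEq X] {e : X} {S : (X → K) → Finset Φ → Finset X → Prop}

/-- a word below the full word does not split -/
lemma no_split_kernel (hB : IsCode B) (hH : IsMat B H) {p : X → ZMod 2}
    (hl : ∀ v, lap H p v = 0) {g : X} (hs : Splits B (Wd H p) g) : False := by
  obtain ⟨c₁, hc₁, c₂, hc₂, hs, hg1, hg2, hd⟩ := hs
  have hf := hB.iso c₁ hc₁ _ (Wd_mem hH (fun _ => 1))
  unfold form at hf
  rw [Finset.sum_eq_single g] at hf
  · rw [hg1] at hf
    revert hf
    simp [kf, z, Wd]
  · intro v _ hvg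
    have hsv : c₁ v + c₂ v = (p v, deg H v * p v + lap H p v) := congrFun hs v
    show kf (c₁ v) ((1, deg H v * 1 + lap H (fun _ => 1) v) : K) = 0
    rw [lap_one H v]
    rcases hd v hvg with h1 | h1
    · rw [h1]
      simp [kf]
    · rw [h1, add_zero] at hsv
      rw [hsv, hl v]
      simp only [kf]
      generalize deg H v = a
      generalize p v = b
      revert a b
      decide
  · intro hh
    exact absurd (Finset.mem_univ g) hh

/-- the reduced Laplacian is injective -/
theorem RS.inj (R : RS B e S) (hB : IsCode B) (hH : IsMat B H) (p : X → ZMod 2) (he : p e = 0)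
    (h0 : ∀ v, v ≠ e → lap H p v = 0) : p = 0 := by
  classical
  have alle : ∀ q : X → ZMod 2, (∀ v, v ≠ e → lap H q v = 0) → ∀ v, lap H q v = 0 := by
    intro q hq v
    by_cases hv : v = e
    · subst hv
      have h1 := lap_sum hH.sym q
      rw [← Finset.add_sum_erase _ _ (Finset.mem_univ v)] at h1
      rw [Finset.sum_eq_zero (s := Finset.univ.erase v)
        (fun w hw => hq w (Finset.ne_of_mem_erase hw)), add_zero] at h1
      exact h1
    · exact hq v hv
  have zf : ∀ q : X → ZMod 2, (∀ v, lap H q v = 0) → ZFree (Wd H q) := by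
    intro q hq v hv
    rw [Wd_z_iff, hq v] at hv
    exact absurd hv.2 (by decide)
  by_contra hp
  have hl := alle p h0
  let Q : ℕ → Prop := fun n => ∃ F : Finset Φ, ∃ q : X → ZMod 2, ∃ Y : Finset X,
    F.card = n ∧ q ≠ 0 ∧ q e = 0 ∧ (∀ v, lap H q v = 0) ∧ S (Wd H q) F Y
  have hQ : ∃ n, Q n := by
    obtain ⟨F, Y, hF⟩ := R.ex (Wd_mem hH p) (zf p hl) ((Wd_zero_iff H p e).2 ⟨he, hl e⟩)
    exact ⟨F.card, F, p, Y, rfl, hp, he, hl, hF⟩
  obtain ⟨F, q, Y, hn, hq0, hqe, hql, hS⟩ := Nat.find_spec hQ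
  have hmin : ∀ F' : Finset Φ, ∀ q' : X → ZMod 2, ∀ Y' : Finset X, F' ⊆ F → q' e = 0 →
      (∀ v, lap H q' v = 0) → S (Wd H q') F' Y' → q' = 0 ∨ Wd H q' = Wd H q := by
    intro F' q' Y' hF' hq'e hq'l hS'
    by_cases hq'0 : q' = 0
    · exact Or.inl hq'0
    right
    have h1 := Nat.find_min' hQ ⟨F', q', Y', rfl, hq'0, hq'e, hq'l, hS'⟩
    rw [← hn] at h1
    have h2 := Finset.eq_of_subset_of_card_le hF' h1
    rw [h2] at hS'
    exact R.det hS' hS
  have hYne : Y ≠ ∅ := by
    intro hY
    rw [hY] at hS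
    obtain ⟨g, hg⟩ := R.wc hS (by
      intro hh
      apply hq0
      funext v
      exact congrArg Prod.fst (congrFun hh v)) (by
      intro κ F' Y' hκ hF' hle
      have hκB := (R.mem hκ).1
      have hκe := (R.mem hκ).2.2.1
      have hκW := eq_Wd hH hκB
      have hκl : ∀ v, lap H (fun v => (κ v).1) v = 0 := by
        intro v
        rcases hle v with h1 | h1
        · rw [hκW] at h1
          exact ((Wd_zero_iff _ _ _).1 h1).2
        · rw [hκW] at h1
          rw [((Wd_eq_iff _ _ _ _).1 h1).2]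
          exact hql v
      rw [hκW] at hκ
      rcases hmin F' _ Y' hF' (by show (κ e).1 = 0; rw [hκe]; rfl) hκl hκ with h1 | h1
      · left
        rw [hκW, h1]
        funext v
        show Wd H 0 v = 0
        rw [Wd_zero_iff]
        refine ⟨rfl, ?_⟩
        unfold lap
        simp
      · right
        rw [hκW]
        exact h1)
    exact no_split_kernel hB hH hql hg
  obtain ⟨y, hy⟩ := Finset.nonempty_iff_ne_empty.2 hYne
  obtain ⟨k', hk'B, h1, h2, h3, h4⟩ := R.part hS (Wd H (fun _ => 1)) (Wd_mem hH _) (by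
    intro v hv
    right
    rw [Wd_eq_iff, lap_one, hql v]
    refine ⟨?_, rfl⟩
    by_contra hne
    apply hv
    rw [Wd_zero_iff]
    refine ⟨?_, hql v⟩
    rcases z2 (q v) with h5 | h5
    · exact h5
    · exact absurd h5.symm hne)
  have hm := R.mem hS
  have hk'e : k' e = 0 := h2 e hm.2.2.1 hm.2.2.2.1
  have hkW := eq_Wd hH hk'B
  have hkl : ∀ v, lap H (fun v => (k' v).1) v = 0 := by
    intro v
    by_cases hvY : v ∈ Y
    · have h5 := h1 v hvY
      rw [hkW] at h5
      rw [((Wd_eq_iff _ _ _ _).1 h5).2]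
      exact lap_one H v
    · by_cases hv0 : Wd H q v = 0
      · have h5 := h2 v hv0 hvY
        rw [hkW] at h5
        exact ((Wd_zero_iff _ _ _).1 h5).2
      · rcases h3 v hv0 with h5 | h5
        · rw [hkW] at h5
          exact ((Wd_zero_iff _ _ _).1 h5).2
        · rw [hkW] at h5
          rw [((Wd_eq_iff _ _ _ _).1 h5).2]
          exact hql v
  have hzf : ZFree k' := by
    rw [hkW]
    exact zf _ hkl
  obtain ⟨⟨F', hF', Y', -, hS'⟩, -⟩ := h4 hzf
  have hyk : k' y = Wd H (fun _ => 1) y := h1 y hy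
  rw [hkW] at hS'
  rcases hmin F' _ Y' hF' (by show (k' e).1 = 0; rw [hk'e]; rfl) hkl hS' with h5 | h5
  · have h6 : (k' y).1 = 0 := congrFun h5 y
    rw [hyk] at h6
    exact absurd h6 (by show (1 : ZMod 2) ≠ 0; decide)
  · have h6 : k' y = Wd H q y := by
      rw [← h5, ← hkW]
    rw [hm.2.2.2.2 y hy, hyk] at h6
    have h7 := congrArg Prod.fst h6
    exact absurd h7 (by show (1 : ZMod 2) ≠ 0; decide)

/-- the inverse of the reduced Laplacian -/
theorem exists_inv' (hH : IsMat B H)
    (inj : ∀ p : X → ZMod 2, p e = 0 → (∀ v, v ≠ e → lap H p v = 0) → p = 0) :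
    ∃ M : X → X → ZMod 2, (∀ x y, M x y = M y x) ∧ (∀ x, M e x = 0) ∧
      (∀ u, u ≠ e → ∀ v, lap H (fun w => M w v) u = if u = v then 1 else 0) := by
  have hsurj : Function.Surjective
      (fun (p : X → ZMod 2) (v : X) => if v = e then p e else lap H p v) := by
    rw [← Finite.injective_iff_surjective]
    intro p q hpq
    have hpe : p e = q e := by
      have := congrFun hpq e
      simpa using this
    have h1 : p + q = 0 := by
      apply inj
      · rw [Pi.add_apply, hpe, CharTwo.add_self_eq_zero]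
      · intro v hv
        have := congrFun hpq v
        simp only [if_neg hv] at this
        rw [lap_add, this, CharTwo.add_self_eq_zero]
    funext v
    have h2 := congrFun h1 v
    rw [Pi.add_apply, Pi.zero_apply] at h2
    revert h2
    generalize p v = a
    generalize q v = b
    revert a b
    decide
  choose m hm using fun y : X => hsurj (fun v => if v = e then 0 else if v = y then 1 else 0)
  have hme : ∀ y, m y e = 0 := by
    intro y
    have := congrFun (hm y) e
    simpa using this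
  have hml : ∀ y v, v ≠ e → lap H (m y) v = if v = y then 1 else 0 := by
    intro y v hv
    have := congrFun (hm y) v
    simpa only [if_neg hv] using this
  have hme' : ∀ v, m e v = 0 := by
    intro v
    have : m e = 0 := by
      apply inj _ (hme e)
      intro v hv
      rw [hml e v hv, if_neg hv]
    rw [this]
    rfl
  have hsy : ∀ x y, m x y = m y x := by
    intro x y
    by_cases hx : x = e
    · rw [hx, hme', hme]
    by_cases hy : y = e
    · rw [hy, hme', hme]
    have h1 := lap_adj hH.sym (m y) (m x)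
    have h2 : ∑ v, m x v * lap H (m y) v = m x y := by
      rw [Finset.sum_eq_single y]
      · rw [hml y y hy, if_pos rfl, mul_one]
      · intro v _ hv
        by_cases hve : v = e
        · rw [hve, hme, zero_mul]
        · rw [hml y v hve, if_neg hv, mul_zero]
      · intro hh
        exact absurd (Finset.mem_univ y) hh
    have h3 : ∑ v, lap H (m x) v * m y v = m y x := by
      rw [Finset.sum_eq_single x]
      · rw [hml x x hx, if_pos rfl, one_mul]
      · intro v _ hv
        by_cases hve : v = e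
        · rw [hve, hme, mul_zero]
        · rw [hml x v hve, if_neg hv, zero_mul]
      · intro hh
        exact absurd (Finset.mem_univ x) hh
    rw [← h2, ← h3, h1]
  refine ⟨fun x y => m y x, fun x y => hsy y x, fun x => hme x, ?_⟩
  intro u hu v
  exact hml v u hu

end

end Pool.Agent.H57.Q
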